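import Pool.Agent.V11196.NR.Eval

/-!
A rational inner function which does not split, with an Agler decomposition for which
the numerical range of the compressed shift `S¹_θ` is not open (MP_dfd7ce, Q1, disproof).
-/

open Filter Topology

namespace Pool.Agent.Results.MP_dfd7ce_an.NotOpen

noncomputable section

/-- The Hardy space of the bidisc, as the space of square-summable coefficient families;
its norm is the `ℓ²` norm of the coefficients. -/
def H2 : Type := lp (fun _ : ℕ × ℕ => ℂ) 2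

@[reducible] def instN : NormedAddCommGroup H2 :=
  (lp.normedAddCommGroup : NormedAddCommGroup (lp (fun _ : ℕ × ℕ => ℂ) 2))

attribute [instance] instN

@[reducible] def instI : InnerProductSpace ℂ H2 :=
  (lp.instInnerProductSpace : InnerProductSpace ℂ (lp (fun _ : ℕ × ℕ => ℂ) 2))

attribute [instance] instI

lemma instC : CompleteSpace H2 :=
  (inferInstance : CompleteSpace (lp (fun _ : ℕ × ℕ => ℂ) 2))

attribute [instance] instC

instance instA : AddCommMonoid H2 := inferInstance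

instance instM : Module ℂ H2 := inferInstance

instance instT : TopologicalSpace H2 := inferInstance

/-- Closed or non-closed linear subspaces of the Hardy space. -/
abbrev Sub : Type := Submodule ℂ H2

/-- Bounded operators on the Hardy space. -/
abbrev Op : Type := H2 →L[ℂ] H2

/-- The coefficients of `f`. -/
def coef (f : H2) : ℕ × ℕ → ℂ := (show lp (fun _ : ℕ × ℕ => ℂ) 2 from f)

/-- The holomorphic function on the bidisc with coefficient family `f`. -/
def val (f : H2) (z w : ℂ) : ℂ := ∑' n : ℕ × ℕ, coef f n * (z ^ n.1 * w ^ n.2)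

/-- The value of a polynomial in two variables. -/
def pval (P : MvPolynomial (Fin 2) ℂ) (z w : ℂ) : ℂ := MvPolynomial.eval ![z, w] P

/-- `θ` is a rational inner function on the bidisc. -/
structure IsRIF (θ : ℂ → ℂ → ℂ) : Prop where
  rational : ∃ P Q : MvPolynomial (Fin 2) ℂ, ∀ z w : ℂ, ‖z‖ < 1 → ‖w‖ < 1 →
    pval Q z w ≠ 0 ∧ θ z w = pval P z w / pval Q z w
  inner : ∀ᵐ p : ℝ × ℝ, ∃ c : ℂ, ‖c‖ = 1 ∧
    Tendsto (fun r : ℝ => θ (r * Complex.exp (p.1 * Complex.I)) (r * Complex.exp (p.2 * Complex.I)))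
      (𝓝[<] 1) (𝓝 c)

/-- `B` is (on the disc) a finite Blaschke product. -/
def IsBlaschke (B : ℂ → ℂ) : Prop :=
  ∃ (n : ℕ) (lam : ℂ) (a : Fin n → ℂ), ‖lam‖ = 1 ∧ (∀ j, ‖a j‖ < 1) ∧
    ∀ z : ℂ, ‖z‖ < 1 → B z = lam * ∏ j, (z - a j) / (1 - (starRingEnd ℂ) (a j) * z)

/-- `θ = B₁(z₁) B₂(z₂)` with finite Blaschke products. -/
def Splits (θ : ℂ → ℂ → ℂ) : Prop :=
  ∃ B₁ B₂ : ℂ → ℂ, IsBlaschke B₁ ∧ IsBlaschke B₂ ∧
    ∀ z w : ℂ, ‖z‖ < 1 → ‖w‖ < 1 → θ z w = B₁ z * B₂ w

/-- `θ H²`. -/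
def mulRange (θ : ℂ → ℂ → ℂ) : Set H2 :=
  {g | ∃ f : H2, ∀ z w : ℂ, ‖z‖ < 1 → ‖w‖ < 1 → val g z w = θ z w * val f z w}

/-- The model space `K_θ = H² ⊖ θ H²`. -/
def Kth (θ : ℂ → ℂ → ℂ) : Sub := (Submodule.span ℂ (mulRange θ))ᗮ

/-- `M` is multiplication by `z₁`. -/
def IsMul1 (M : Op) : Prop :=
  ∀ (f : H2) (z w : ℂ), ‖z‖ < 1 → ‖w‖ < 1 → val (M f) z w = z * val f z w

/-- `M` is multiplication by `z₂`. -/
def IsMul2 (M : Op) : Prop :=
  ∀ (f : H2) (z w : ℂ), ‖z‖ < 1 → ‖w‖ < 1 → val (M f) z w = w * val f z w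

/-- Agler decompositions of `K_θ`, where `M₁`, `M₂` are the two coordinate multiplications. -/
structure Agler (θ : ℂ → ℂ → ℂ) (M₁ M₂ : Op) (S₁ S₂ : Sub) : Prop where
  closed₁ : IsClosed (S₁ : Set H2)
  closed₂ : IsClosed (S₂ : Set H2)
  orth : S₁ ⟂ S₂
  sum : S₁ ⊔ S₂ = Kth θ
  inv₁ : ∀ f ∈ S₁, M₁ f ∈ S₁
  inv₂ : ∀ f ∈ S₂, M₂ f ∈ S₂

/-- The compression `P_S M|_S`. -/
def compress (M : Op) (S : Sub) [S.HasOrthogonalProjection] : S →L[ℂ] S :=
  S.orthogonalProjectionOnto ∘L M ∘L S.subtypeL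

/-- The numerical range (the inner product of Mathlib is linear in the second variable). -/
def numRange {H : Type*} [NormedAddCommGroup H] [InnerProductSpace ℂ H] (A : H →L[ℂ] H) :
    Set ℂ :=
  {c | ∃ x : H, ‖x‖ = 1 ∧ c = inner ℂ x (A x)}

def A1 : Op := V11196.NR.Z1

def A1' : Op := V11196.NR.Z1'

def A2 : Op := V11196.NR.Z2

def A2' : Op := V11196.NR.Z2'

lemma shH : V11196.NR.Sh A1 A1' A2 A2' := V11196.NR.shNat

lemma posH {f : H2} (hf : f ∈ V11196.NR.SS A1 A1' A2) :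
    0 ≤ ‖f‖ ^ 2 + 2 * (inner ℂ f (A1 f) : ℂ).re := V11196.NR.pos_SS hf

lemma extH : ∃ f ∈ V11196.NR.SS A1 A1' A2, f ≠ 0 ∧
    ‖f‖ ^ 2 + 2 * (inner ℂ f (A1 f) : ℂ).re = 0 := V11196.NR.extremal_SS

lemma orthH (f : H2) : (∀ g ∈ mulRange V11196.NR.th, inner ℂ g f = 0) ↔
    f ∈ V11196.NR.KK A1 A1' A2 A2' := V11196.NR.orth_iff f

lemma mul1H : IsMul1 A1 := fun f z w _ _ => V11196.NR.ev_Z1 f z w

lemma mul2H : IsMul2 A2 := fun f z w _ _ => V11196.NR.ev_Z2 f z w

lemma re_aux {E : Type*} [NormedAddCommGroup E] [InnerProductSpace ℂ E] (A : E →L[ℂ] E) (f : E)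
    (r : ℝ) : (inner ℂ ((r : ℂ) • f) (A ((r : ℂ) • f)) : ℂ).re = r * r * (inner ℂ f (A f) : ℂ).re := by
  rw [map_smul, inner_smul_left, inner_smul_right, Complex.conj_ofReal, ← mul_assoc,
    ← Complex.ofReal_mul, Complex.re_ofReal_mul]

lemma isRIF_th : IsRIF V11196.NR.th where
  rational := by
    refine ⟨MvPolynomial.X 1 * MvPolynomial.X 0 ^ 2 + MvPolynomial.C (1 / 4) *
      (1 + MvPolynomial.X 0), 1 + MvPolynomial.C (1 / 4) * (MvPolynomial.X 1 *
      (MvPolynomial.X 0 + MvPolynomial.X 0 ^ 2)), fun z w hz hw => ?_⟩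
    have h1 := V11196.NR.den_ne hz.le hw.le
    constructor
    · simp only [pval, map_add, map_mul, map_one, map_pow, MvPolynomial.eval_X, MvPolynomial.eval_C,
        Matrix.cons_val_zero, Matrix.cons_val_one]
      intro h0
      apply h1
      rw [← h0]
      ring
    · simp only [pval, map_add, map_mul, map_one, map_pow, MvPolynomial.eval_X, MvPolynomial.eval_C,
        Matrix.cons_val_zero, Matrix.cons_val_one, V11196.NR.th]
      congr 1 <;> ring
  inner := by
    refine Filter.Eventually.of_forall fun p => ?_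
    set a := Complex.exp (p.1 * Complex.I) with ha
    set b := Complex.exp (p.2 * Complex.I) with hb
    have na : ‖a‖ = 1 := Complex.norm_exp_ofReal_mul_I _
    have nb : ‖b‖ = 1 := Complex.norm_exp_ofReal_mul_I _
    have hd : 1 + b * (a + a ^ 2) / 4 ≠ 0 := V11196.NR.den_ne na.le nb.le
    refine ⟨V11196.NR.th a b, ?_, ?_⟩
    · have aa : (starRingEnd ℂ) a * a = 1 := by
        rw [mul_comm, Complex.mul_conj, Complex.normSq_eq_norm_sq, na]
        simp
      have bb : (starRingEnd ℂ) b * b = 1 := by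
        rw [mul_comm, Complex.mul_conj, Complex.normSq_eq_norm_sq, nb]
        simp
      have h1 : b * a ^ 2 + (1 + a) / 4 = b * a ^ 2 * (starRingEnd ℂ) (1 + b * (a + a ^ 2) / 4) := by
        simp only [map_add, map_one, map_mul, map_div₀, map_pow, Complex.conj_ofNat]
        linear_combination (-1 / 4) * (a + 1 + (starRingEnd ℂ) a * a) * aa + (-1 / 4) *
          (a * ((starRingEnd ℂ) a * a) + ((starRingEnd ℂ) a * a) ^ 2) * bb
      rw [V11196.NR.th, norm_div, h1, norm_mul, norm_mul, norm_pow, na, nb, Complex.norm_conj]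
      rw [one_pow, one_mul, one_mul, div_self]
      exact norm_ne_zero_iff.mpr hd
    · have h2 : ContinuousAt (fun r : ℝ => V11196.NR.th (r * a) (r * b)) 1 := by
        unfold V11196.NR.th
        apply ContinuousAt.div
        · fun_prop
        · fun_prop
        · simpa using hd
      have h3 : Tendsto (fun r : ℝ => V11196.NR.th (r * a) (r * b)) (𝓝 1)
          (𝓝 (V11196.NR.th a b)) := by
        have := h2.tendsto
        simpa using this
      exact h3.mono_left nhdsWithin_le_nhds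

lemma not_splits_th : ¬ Splits V11196.NR.th := by
  rintro ⟨B₁, B₂, -, -, h⟩
  have n2 : ‖(1 / 2 : ℂ)‖ < 1 := by norm_num
  have n0 : ‖(0 : ℂ)‖ < 1 := by norm_num
  have h1 := h (1 / 2) (1 / 2) n2 n2
  have h2 := h 0 0 n0 n0
  have h3 := h (1 / 2) 0 n2 n0
  have h4 := h 0 (1 / 2) n0 n2
  have h5 : V11196.NR.th (1 / 2) (1 / 2) * V11196.NR.th 0 0 =
      V11196.NR.th (1 / 2) 0 * V11196.NR.th 0 (1 / 2) := by
    rw [h1, h2, h3, h4]
    ring
  norm_num [V11196.NR.th] at h5

lemma Kth_th : Kth V11196.NR.th = V11196.NR.KK A1 A1' A2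
    A2' := by
  ext f
  rw [← orthH, Kth, Submodule.mem_orthogonal]
  constructor
  · intro h g hg
    exact h g (Submodule.subset_span hg)
  · intro h g hg
    induction hg using Submodule.span_induction with
    | mem x hx => exact h x hx
    | zero => exact inner_zero_left _
    | add x y _ _ hx hy => rw [inner_add_left, hx, hy, add_zero]
    | smul c x _ hx => rw [inner_smul_left, hx, mul_zero]

/-- There are a rational inner function `θ` which is not a product of two one-variable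
finite Blaschke products, and an Agler decomposition of its model space, such that the numerical
range of `S¹_θ = P_{S₂} S_{z₁}|_{S₂}` is not open. -/
theorem result : ∃ (θ : ℂ → ℂ → ℂ) (M₁ M₂ : Op) (S₁ S₂ : Sub)
    (_ : S₂.HasOrthogonalProjection), IsRIF θ ∧ ¬ Splits θ ∧ IsMul1 M₁ ∧ IsMul2 M₂ ∧
      Agler θ M₁ M₂ S₁ S₂ ∧ ¬ IsOpen (numRange (compress M₁ S₂)) := by
  set S₂ : Sub := V11196.NR.SS A1 A1' A2 with hS₂
  set K : Sub := V11196.NR.KK A1 A1' A2
    A2' with hK
  have hc2 : IsClosed (S₂ : Set H2) := V11196.NR.isClosed_SS _ _ _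
  have : CompleteSpace S₂ := hc2.completeSpace_coe
  have hp : S₂.HasOrthogonalProjection := inferInstance
  refine ⟨V11196.NR.th, A1, A2, S₂ᗮ ⊓ K, S₂, hp, isRIF_th, not_splits_th,
    mul1H, mul2H, ?_, ?_⟩
  · constructor
    · exact (Submodule.isClosed_orthogonal S₂).inter (V11196.NR.isClosed_KK _ _ _ _)
    · exact hc2
    · rw [Submodule.isOrtho_iff_inner_eq]
      rintro u ⟨hu, -⟩ v hv
      exact (Submodule.mem_orthogonal' _ _).mp hu v hv
    · rw [Kth_th, sup_comm]
      exact Submodule.sup_orthogonal_inf_of_hasOrthogonalProjection shH.SS_le_KK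
    · rintro f ⟨hf, hfK⟩
      have h1 := shH.A_mem_compl hfK ((Submodule.mem_orthogonal' _ _).mp hf)
      exact ⟨(Submodule.mem_orthogonal' _ _).mpr h1.2, h1.1⟩
    · exact fun f hf => shH.B_mem_SS hf
  · have hin : ∀ x : S₂, inner ℂ x (compress A1 S₂ x) =
        inner ℂ (x : H2) (A1 (x : H2)) := by
      intro x
      exact Submodule.inner_orthogonalProjectionOnto_eq_of_mem_left _ _
    have hre : ∀ c ∈ numRange (compress A1 S₂), -(1 / 2) ≤ c.re := by
      rintro c ⟨x, hx, rfl⟩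
      rw [hin]
      have h1 := posH x.2
      have h2 : ‖(x : H2)‖ = 1 := hx
      rw [h2] at h1
      linarith
    obtain ⟨f, hf, hf0, hfe⟩ := extH
    have hnf : 0 < ‖f‖ := norm_pos_iff.mpr hf0
    set x : S₂ := ⟨((‖f‖⁻¹ : ℝ) : ℂ) • f, Submodule.smul_mem _ _ hf⟩ with hx
    have hx1 : ‖x‖ = 1 := by
      change ‖((‖f‖⁻¹ : ℝ) : ℂ) • f‖ = 1
      rw [norm_smul, Complex.norm_real, norm_inv, norm_norm, inv_mul_cancel₀ hnf.ne']
    set c : ℂ := inner ℂ x (compress A1 S₂ x) with hc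
    have hcre : c.re = -(1 / 2) := by
      rw [hc, hin]
      have h3 : (inner ℂ f (A1 f) : ℂ).re = -(‖f‖ ^ 2 / 2) := by linarith
      refine (re_aux A1 f ‖f‖⁻¹).trans ?_
      rw [h3]
      field_simp
    intro hopen
    have hcW : c ∈ numRange (compress A1 S₂) := ⟨x, hx1, rfl⟩
    obtain ⟨ε, hε, hball⟩ := Metric.isOpen_iff.mp hopen c hcW
    have h4 : c - ((ε / 2 : ℝ) : ℂ) ∈ Metric.ball c ε := by
      rw [Metric.mem_ball, dist_eq_norm, sub_sub_cancel_left, norm_neg, Complex.norm_real,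
        Real.norm_of_nonneg (by positivity)]
      linarith
    have h5 := hre _ (hball h4)
    rw [Complex.sub_re, Complex.ofReal_re, hcre] at h5
    linarith

end

end Pool.Agent.Results.MP_dfd7ce_an.NotOpen
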